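import Pool.Agent.Zk17.J.ConvJ

set_option autoImplicit false

/-!
# Few non-real zeros of the Jensen polynomials: the converse
-/

namespace Pool.Agent.Zk17.JD

open Complex Filter Topology Polynomial
open Pool.Agent.H24R2.JP

/-- The number of the non-real zeros, with multiplicity. -/
noncomputable def nonreal (P : ℝ[X]) : ℕ := by
  classical
  exact ((P.map (algebraMap ℝ ℂ)).roots.filter (fun z : ℂ => z.im ≠ 0)).card

/-- The bound with the constant `κ`. -/
def BoundJ (κ : ℝ) : Prop := ∃ C : ℝ, 0 < C ∧ ∀ d n : ℕ, 1 ≤ d →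
  (nonreal (jensen d n) : ℝ) ≤ C * d * Real.exp (-(κ * n))

lemma jensen_ne_zero (d n : ℕ) : jensen d n ≠ 0 := by
  intro h
  have h1 := Pool.Agent.Zk17.J.jensen_coeff d n 0
  rw [h, Polynomial.coeff_zero, Nat.choose_zero_right, Nat.cast_one, one_mul, add_zero] at h1
  have h2 := gamT.1 n
  linarith

lemma real_of_nonreal {d n : ℕ} (h : nonreal (jensen d n) = 0) (z : ℂ) (hz : aeval z (jensen d n) = 0) :
    z.im = 0 := by
  classical
  by_contra hcon
  unfold nonreal at h
  rw [Multiset.card_eq_zero, Multiset.filter_eq_nil] at h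
  refine h z ?_ hcon
  rw [Polynomial.mem_roots (by
    rw [Polynomial.map_ne_zero_iff (algebraMap ℝ ℂ).injective]
    exact jensen_ne_zero d n)]
  rwa [Polynomial.IsRoot.def, Polynomial.eval_map_algebraMap]

theorem conv (h : ∃ κ : ℝ, 8 < κ ∧ BoundJ κ) :
    ∃ y : ℝ, y < 1 / 2 ∧ ∀ s : ℂ, 1 / 2 + y < s.re → riemannZeta s ≠ 0 := by
  obtain ⟨κ, hκ, C, hC, h⟩ := h
  obtain ⟨b, hb8, hbκ⟩ : ∃ b : ℝ, 8 < b ∧ b < κ := ⟨(8 + κ) / 2, by linarith, by linarith⟩
  refine Pool.Agent.Zk17.J.convJ b hb8 ?_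
  have hb0 : 0 < b := by linarith
  obtain ⟨N, hN⟩ := exists_nat_gt (Real.log C / (κ - b))
  refine ⟨N, fun n d hn hd => ?_⟩
  rcases Nat.eq_zero_or_pos d with rfl | hd1
  · intro z hz
    exfalso
    have h1 : jensen 0 n = Polynomial.C (gam n) := by
      unfold jensen
      simp
    rw [h1, Polynomial.aeval_C] at hz
    have h2 := gamT.1 n
    have h3 : ((gam n : ℝ) : ℂ) = 0 := hz
    rw [Complex.ofReal_eq_zero] at h3
    linarith
  · intro z hz
    refine real_of_nonreal ?_ z hz
    have h1 := h d n hd1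
    have hn' : (N : ℝ) ≤ n := by exact_mod_cast hn
    have hlt : C * d * Real.exp (-(κ * n)) < 1 := by
      calc C * d * Real.exp (-(κ * n)) ≤ C * Real.exp (b * n) * Real.exp (-(κ * n)) := by gcongr
        _ = Real.exp (Real.log C + b * n + (-(κ * n))) := by
            rw [Real.exp_add, Real.exp_add, Real.exp_log hC]
        _ < Real.exp 0 := by
            apply Real.exp_lt_exp.2
            rw [div_lt_iff₀ (by linarith)] at hN
            nlinarith
        _ = 1 := Real.exp_zero
    have h2 : (nonreal (jensen d n) : ℝ) < 1 := lt_of_le_of_lt h1 hlt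
    have h3 : nonreal (jensen d n) < 1 := by exact_mod_cast h2
    omega

end Pool.Agent.Zk17.JD
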