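import Pool.Agent.Zk17.JD.LMF
import Pool.Agent.Zk2.DH.MP
import Pool.Agent.Zk3.DH.MD

set_option autoImplicit false

/-!
# The measure of the heights with non-real zeros of `FF^(n)`: the theorem
-/

namespace Pool.Agent.Zk17.JD

theorem slmf : S_LMF := sLMF Pool.Agent.Zk2.DH.smp Pool.Agent.Zk3.DH.sMD Pool.Agent.Zk1.DH.LocG.sLOCg

end Pool.Agent.Zk17.JD
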