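import Pool.Agent.Zk17.JD.Tw

set_option autoImplicit false

/-!
# The measure of the heights with non-real zeros of `FF^(n)`, `n` of the order of `log T`
-/

namespace Pool.Agent.Zk17.JD

open Complex Filter Topology MeasureTheory Set
open Pool.Agent.H24R2.JP (XX FF HH Om)
open Pool.Agent.H24R2.DZ (ra)
open Pool.Agent.Zk1.DH
open Pool.Agent.Zk69.DH
open Pool.Agent.Zk3.DH (zp_far ng_far)
open Pool.Agent.Zk17.J (zv wv FF_diff)
open Pool.Agent.H986R2.K4.WinAux (scale)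

/-- The measure of the heights `t` with a non-real zero of `FF^(n)` near `-t²`. -/
def S_LMF : Prop := ∀ κt κ1 : ℝ, 0 < κt → κt < 4 → 0 < κ1 → ∃ C T0 : ℝ, 0 < C ∧ 2 ≤ T0 ∧
  ∀ (T : ℝ) (n : ℕ), T0 ≤ T → κ1 * Real.log T ≤ n → (n : ℝ) ≤ Real.log T →
  volume {t : ℝ | T / 2 ≤ t ∧ t ≤ 3 * T ∧ ∃ v : ℂ, iteratedDeriv n FF (zv t v) = 0 ∧ v.re ≠ 0 ∧
    |v.re| ≤ 1 ∧ |v.im| ≤ ra T n / 100} ≤ ENNReal.ofReal (C * T * Real.exp (-(κt * n)))

lemma iter_FFr (t r : ℝ) (n : ℕ) (z : ℂ) :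
    iteratedDeriv n (FFr t r) z = (2 * I * t * r) ^ n * iteratedDeriv n FF (zv t ((r : ℂ) * z)) := by
  have hfun : FFr t r = fun z => FF (-(t : ℂ) ^ 2 + (2 * I * t * r) * z) := by
    funext w
    unfold FFr zv
    congr 1
    ring
  rw [hfun, scale FF_diff]
  congr 2
  unfold zv
  ring

theorem sLMF (hMP : S_MP) (hMD : S_MD) (hLOC : LocG.S_LOCg) : S_LMF := by
  intro κt κ1 hκt0 hκt hκ1
  -- constants
  obtain ⟨ε, hε0, hε8, hε2⟩ : ∃ ε : ℝ, 0 < ε ∧ ε ≤ 1 / 8 ∧ κt ≤ 4 * (1 - 2 * ε) * (1 - 2 * ε) := by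
    refine ⟨min (1 / 8) ((4 - κt) / 16), lt_min (by norm_num) (by linarith), min_le_left _ _, ?_⟩
    have h1 := min_le_right (1 / 8 : ℝ) ((4 - κt) / 16)
    nlinarith [sq_nonneg (min (1 / 8 : ℝ) ((4 - κt) / 16))]
  obtain ⟨κ, hκ0, hκε, hκ4, h1⟩ := hLOC ε hε0 (by linarith)
  have hκtκ : κt ≤ 4 * (1 - 2 * ε) * (1 - 2 * κ) := by
    refine hε2.trans ?_
    have : 0 ≤ 4 * (1 - 2 * ε) := by linarith
    exact mul_le_mul_of_nonneg_left (by linarith) this
  set R : ℝ := max 1 (1 / (2 * κ1)) with hRdef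
  have hR1 : 1 ≤ R := le_max_left _ _
  set ρ2 : ℝ := max 1 (3 / (4 * κ1)) with hρ2def
  have hρ21 : 1 ≤ ρ2 := le_max_left _ _
  set Kp : ℝ := max ρ2 (5 / κ1) with hKpdef
  have hKp1 : ρ2 ≤ Kp := le_max_left _ _
  set M : ℝ := 2 * (R + 3 + ρ2 + Kp) with hMdef
  obtain ⟨Kx, Tx, hTx, hxb⟩ := Pool.Agent.H24R2.DZ.xb M
  set C5 : ℝ := 4 * max Kx 0 / κ1 with hC5def
  have hC5 : 0 ≤ C5 := by
    have : 0 ≤ max Kx 0 := le_max_right _ _
    positivity
  set B : ℝ := C5 + Kp + 2 * ρ2 + 10 with hBdef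
  obtain ⟨ρ0, hρ0, h2⟩ := h1 R (B + 1) hR1 (by linarith)
  set ρ : ℝ := max ρ0 Kp with hρdef
  have hρ0ρ : ρ0 ≤ ρ := le_max_left _ _
  have hKpρ : Kp ≤ ρ := le_max_right _ _
  set C3 : ℝ := C5 + Kp + 1 with hC3def
  obtain ⟨Y, hY, h3⟩ := h2 ρ hρ0ρ (C3 + 1) (by linarith)
  obtain ⟨a1, ha1, h4⟩ := h3 Y le_rfl
  obtain ⟨K0, hK0⟩ := exists_nat_ge (40 + 1 / a1 + 40 * (ρ + (R + 1) + (Y + 1) + 3) + 8 / (2 * ε))
  have hρR : 0 < ρ + (R + 1) + (Y + 1) + 3 := by linarith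
  have hK0a : (40 : ℝ) ≤ K0 := by
    have e1 : 0 < 1 / a1 := by positivity
    have e2 : 0 < 8 / (2 * ε) := by positivity
    linarith
  have hK0n : 3 ≤ K0 := by
    have : (3 : ℝ) ≤ K0 := by linarith
    exact_mod_cast this
  have hK0p : (0 : ℝ) < K0 := by linarith
  have hK0b : 1 / (K0 : ℝ) ≤ a1 := by
    rw [div_le_iff₀ hK0p]
    have e1 : 1 / a1 ≤ K0 := by
      have e2 : 0 < 8 / (2 * ε) := by positivity
      linarith
    rw [div_le_iff₀ ha1] at e1
    linarith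
  have hK0c : 8 / (K0 : ℝ) ≤ 2 * ε := by
    rw [div_le_iff₀ hK0p]
    have e1 : 8 / (2 * ε) ≤ K0 := by
      have e2 : 0 < 1 / a1 := by positivity
      linarith
    rw [div_le_iff₀ (by linarith)] at e1
    linarith
  have hηQ : 40 / (K0 : ℝ) * (ρ + (R + 1) + (Y + 1) + 3) ≤ 1 := by
    have e1 : 0 < 1 / a1 := by positivity
    have e2 : 0 < 8 / (2 * ε) := by positivity
    rw [div_mul_eq_mul_div, div_le_iff₀ hK0p]
    linarith
  have hη1 : 40 / (K0 : ℝ) ≤ 1 := by rw [div_le_one hK0p]; exact hK0a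
  have hη0 : 0 < 40 / (K0 : ℝ) := by positivity
  obtain ⟨n0, h5⟩ := h4 K0 (40 / K0) hK0n hK0b hη0 le_rfl
  obtain ⟨C, T1, n1, hC, hT1, hnear⟩ := near hMP hMD (κt := κt) (ε := 2 * ε) (κ := 2 * κ) (ρ := ρ)
    (R := R + 1) (Y := Y + 1) (K0 := K0) hκtκ (by linarith) (by linarith) (by linarith) (by linarith)
    (by linarith) (by linarith) hK0n hK0c
  obtain ⟨T2, hT2, hHHok⟩ := HH_ok (η := 40 / (K0 : ℝ) / 2) (M := ρ + (R + 1) + (Y + 1) + 3) (by positivity)
    (by linarith)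
  set δ : ℝ := 1 / (4 * (ρ + (R + 1) + 1)) with hδdef
  have hδ0 : 0 < δ := by positivity
  have hδQ : 4 * δ * (ρ + (R + 1) + 1) ≤ 1 := by
    rw [hδdef]
    apply le_of_eq
    have : ρ + (R + 1) + 1 ≠ 0 := by linarith
    field_simp
  obtain ⟨τ, hτ0, hτκ, hτε, hτη⟩ : ∃ τ : ℝ, 0 < τ ∧ τ ≤ κ ∧ τ ≤ ε ∧ τ ≤ 40 / (K0 : ℝ) / 20 :=
    ⟨min κ (min ε (40 / (K0 : ℝ) / 20)), lt_min hκ0 (lt_min hε0 (by positivity)), min_le_left _ _,
      (min_le_right _ _).trans (min_le_left _ _), (min_le_right _ _).trans (min_le_right _ _)⟩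
  set Q : ℝ := ρ + R + Y + 4 with hQdef
  have hQ1 : 1 ≤ Q := by linarith
  set Ns : ℝ := n0 + n1 + 2 + K0 with hNs
  set T0 : ℝ := max (max (max T1 T2) (16 * Q ^ 2 / τ))
    (max (max (2 * Tx + 8 * (Y + 2)) 16) (Real.exp (Ns / κ1))) with hT0def
  have hT01 : T1 ≤ T0 := (le_max_left _ _).trans ((le_max_left _ _).trans (le_max_left _ _))
  have hT02 : T2 ≤ T0 := (le_max_right _ _).trans ((le_max_left _ _).trans (le_max_left _ _))
  have hT06 : 16 * Q ^ 2 / τ ≤ T0 := (le_max_right _ _).trans (le_max_left _ _)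
  have hT03 : 2 * Tx + 8 * (Y + 2) ≤ T0 :=
    (le_max_left _ _).trans ((le_max_left _ _).trans (le_max_right _ _))
  have hT04 : 16 ≤ T0 := (le_max_right _ _).trans ((le_max_left _ _).trans (le_max_right _ _))
  have hT05 : Real.exp (Ns / κ1) ≤ T0 := (le_max_right _ _).trans (le_max_right _ _)
  refine ⟨C, T0, hC, by linarith, ?_⟩
  intro T n hT hn1 hn2
  have hTpos : 0 < T := by linarith
  have hT2' : 2 ≤ T := by linarith
  have hL : 0 < Real.log T := Real.log_pos (by linarith)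
  have hnNs : Ns ≤ n := by
    refine le_trans ?_ hn1
    have e1 : Ns / κ1 ≤ Real.log T := by
      rw [Real.le_log_iff_exp_le hTpos]
      exact hT05.trans hT
    rw [div_le_iff₀ hκ1] at e1
    linarith
  have hnn0 : n0 ≤ n := by
    have : (n0 : ℝ) ≤ n := by
      have e1 : (0 : ℝ) ≤ n1 := Nat.cast_nonneg _
      linarith
    exact_mod_cast this
  have hnn1 : n1 ≤ n := by
    have : (n1 : ℝ) ≤ n := by
      have e1 : (0 : ℝ) ≤ n0 := Nat.cast_nonneg _
      linarith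
    exact_mod_cast this
  have hn2R : (2 : ℝ) ≤ n := by
    have e1 : (0 : ℝ) ≤ n1 := Nat.cast_nonneg _
    have e2 : (0 : ℝ) ≤ n0 := Nat.cast_nonneg _
    linarith
  have hnK0 : (K0 : ℝ) ≤ n := by
    have e1 : (0 : ℝ) ≤ n1 := Nat.cast_nonneg _
    have e2 : (0 : ℝ) ≤ n0 := Nat.cast_nonneg _
    linarith
  have hn1' : 1 ≤ n := by
    have : (1 : ℝ) ≤ n := by linarith
    exact_mod_cast this
  have hr := ra_pos hT2' hn1'
  have hrL := ra_L n hT2'
  have hr2 : ra T n ≤ 2 * 1 := ra_le hT2' (by linarith)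
  have hr1 : 2 * κ1 ≤ ra T n := by
    unfold ra
    rw [le_div_iff₀ (by positivity)]
    linarith
  refine le_trans (measure_mono ?_) (hnear T n (hT01.trans hT) hnn1 (by linarith))
  rintro t ⟨ht1, ht2, v, hv0, hv1, hv2, hv3⟩
  refine ⟨ht1, ht2, ?_⟩
  rintro ⟨hPP, hD⟩
  set r := ra T n with hrdef
  have ht0 : 0 < t := by linarith
  have him : ∀ y : ℝ, |y| ≤ Y + 2 → 2 * (Y + 2) ≤ T / 4 ∧ |r * y| ≤ 2 * (Y + 2) := by
    intro y hy
    constructor
    · linarith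
    · rw [abs_mul, abs_of_pos hr]
      have e1 : r * |y| ≤ 2 * (Y + 2) := mul_le_mul (by linarith) hy (abs_nonneg _) (by norm_num)
      exact e1
  have hHH : ∀ w : ℂ, 1 - 2 * κ ≤ w.re → w.re ≤ ρ + (R + 1) + 1 → |w.im| ≤ (Y + 1) + 1 →
      DifferentiableAt ℂ HH (I * t + r * w) ∧ HH (I * t + r * w) ≠ 0 ∧
      ‖(r : ℂ) * logDeriv HH (I * t + r * w) - n‖ ≤ 40 / (K0 : ℝ) / 2 / 5 * n := by
    intro w hw1 hw2 hw3
    apply hHHok T t n (hT02.trans hT) hn1' hn2 ht1 ht2 w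
    refine (Complex.norm_le_abs_re_add_abs_im w).trans ?_
    rw [abs_of_pos (by linarith)]
    linarith
  have hLH := det (κ := 2 * κ) (ε := 2 * ε) (η := 40 / (K0 : ℝ)) (B := B) (C3 := C3) (R := R + 1) (ρ := ρ)
    (Y := Y + 1) (ρ2 := ρ2) (K := Kp) (C5 := C5) (C2 := 2) (δ := δ) (L := Real.log T) (K0 := K0) (q := 0)
    (n := n) (X := T ^ (1 / K0 : ℝ)) (T := T) (t := t) (r := r)
    rfl (by linarith) hK0n hn1' (by linarith) (by linarith) (by linarith) (by linarith) (by linarith)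
    (by linarith) hρ21 hKp1 hKpρ hC5 hr hrL
    hη0 hηQ
    (by
      intro y hy
      obtain ⟨e1, e2⟩ := him y (by linarith)
      have e3 := (abs_le.mp e2).1
      linarith)
    hδ0 hδQ
    (by
      intro w hw1 hw2 hw3
      obtain ⟨e1, e2, e3⟩ := hHH w hw1 hw2 hw3
      refine ⟨e1, e2, e3.trans ?_⟩
      have : (0 : ℝ) ≤ n := by linarith
      have e4 : 40 / (K0 : ℝ) / 2 / 5 ≤ 40 / (K0 : ℝ) / 5 := by linarith
      exact mul_le_mul_of_nonneg_right e4 this)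
    hPP hD
    (by
      intro w hw1 hw2 hw3
      exact zp_far hκ1 hT2' hK0n (le_max_right _ _) hn1 hr1 hrL hδ0 w hw1)
    (by
      intro w hw1 hw2
      obtain ⟨e1, e2⟩ := him w.im (by linarith)
      have e3 := abs_le.mp e2
      have e4 : (I * t + r * w : ℂ) = I * ((t + r * w.im : ℝ) : ℂ) + ((r * w.re : ℝ) : ℂ) := by
        apply Complex.ext <;> simp
      rw [e4]
      have e5 : max (R + 1 + 2) ρ2 ≤ R + 3 + ρ2 := max_le (by linarith) (by linarith)
      have e6 : |w.re| ≤ R + 3 + ρ2 := hw1.trans e5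
      apply ng_far (Tx := Tx) (Kx := Kx) (M := M) (T := T) hκ1 hT2' hxb
      · linarith
      · have e10 : 16 * T ≤ T * T := mul_le_mul_of_nonneg_right (by linarith) hTpos.le
        rw [pow_two]
        linarith
      · linarith
      · exact hn1
      · have e7 : 2 * κ1 * (5 / κ1) ≤ r * Kp :=
          mul_le_mul hr1 (le_max_right _ _) (by positivity) hr.le
        have e8 : 2 * κ1 * (5 / κ1) = 10 := by field_simp; ring
        linarith
      · have e9 : r * Kp ≤ 2 * Kp := mul_le_mul_of_nonneg_right (by linarith) (by linarith)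
        rw [hMdef]
        linarith
      · rw [abs_mul, abs_of_pos hr, hMdef]
        have e9 : r * |w.re| ≤ 2 * (R + 3 + ρ2) :=
          mul_le_mul (by linarith) e6 (abs_nonneg _) (by norm_num)
        linarith)
    hn2R
    (by
      have e1 := Real.add_one_le_exp (n : ℝ)
      linarith)
    (by
      rw [pow_zero]
      exact Real.one_le_exp (by linarith))
    le_rfl le_rfl
  have hG := toG (τ := τ) hLH (by
      intro w hw1 hw2 hw3
      obtain ⟨e1, e2, e3⟩ := hHH w hw1 (by linarith) (by linarith)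
      have e4 := hPP w hw1 (by linarith) (by linarith)
      have hwr : 0 ≤ r * w.re := mul_nonneg hr.le (by linarith)
      obtain ⟨-, -, e5⟩ := F0_reg (X := T ^ (1 / K0 : ℝ)) hwr e1 e2
      rw [e5]
      calc ‖(r : ℂ) * (logDeriv HH (I * t + r * w) + logDeriv (PP (T ^ (1 / K0 : ℝ))) (1 / 2 + (I * t + r * w))) - n‖
          = ‖((r : ℂ) * logDeriv HH (I * t + r * w) - n) +
              (r : ℂ) * logDeriv (PP (T ^ (1 / K0 : ℝ))) (1 / 2 + (I * t + r * w))‖ := by ring_nf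
        _ ≤ ‖(r : ℂ) * logDeriv HH (I * t + r * w) - n‖ +
              ‖(r : ℂ) * logDeriv (PP (T ^ (1 / K0 : ℝ))) (1 / 2 + (I * t + r * w))‖ := norm_add_le _ _
        _ ≤ 40 / (K0 : ℝ) / 2 / 5 * n + r * (2 * (40 / K0) / 5 * Real.log T) := by
            refine add_le_add e3 ?_
            rw [norm_mul, Complex.norm_real, Real.norm_eq_abs, abs_of_pos hr]
            exact mul_le_mul_of_nonneg_left e4 hr.le
        _ = 40 / (K0 : ℝ) / 2 / 5 * n + 2 * (40 / K0) / 5 * (r * Real.log T) := by ring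
        _ = 9 / 10 * (40 / (K0 : ℝ) * n) := by rw [hrL]; ring)
    hκ0 (by linarith) hη0 hη1 hR1 (by linarith) hY ht0 hr hτ0 hτκ hτε hτη
    (by
      rw [div_le_iff₀ ht0]
      have e1 : 16 * Q ^ 2 ≤ T * τ := by
        have := hT06.trans hT
        rwa [div_le_iff₀ hτ0] at this
      have e2 : 2 * r * Q ^ 2 ≤ 4 * Q ^ 2 := by
        refine mul_le_mul_of_nonneg_right (by linarith) (by positivity)
      have e3 : τ * (T / 2) ≤ τ * t := mul_le_mul_of_nonneg_left ht1 hτ0.le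
      have e4 : 0 ≤ Q ^ 2 := by positivity
      linarith)
    (by
      rw [div_le_iff₀ ht0]
      have e1 : 16 * Q ^ 2 ≤ T * τ := by
        have := hT06.trans hT
        rwa [div_le_iff₀ hτ0] at this
      have e2 : 4 * (r * Q) ≤ 8 * Q ^ 2 := by
        have : r * Q ≤ 2 * Q := mul_le_mul_of_nonneg_right (by linarith) (by linarith)
        nlinarith
      have e3 : τ * (T / 2) ≤ τ * t := mul_le_mul_of_nonneg_left ht1 hτ0.le
      linarith)
  have hrC : (r : ℂ) ≠ 0 := by exact_mod_cast hr.ne'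
  have hre : (v / r : ℂ).re = v.re / r := Complex.div_ofReal_re _ _
  have him' : (v / r : ℂ).im = v.im / r := Complex.div_ofReal_im _ _
  have hloc := h5 n _ _ _ hnn0 hG (v / r) (by
      rw [hre, abs_div, abs_of_pos hr, div_le_iff₀ hr]
      have e2 : 1 / (2 * κ1) * (2 * κ1) ≤ R * r :=
        mul_le_mul (le_max_right _ _) hr1 (by positivity) (by linarith)
      have e3 : 1 / (2 * κ1) * (2 * κ1) = 1 := by field_simp
      linarith) (by
      rw [him', abs_div, abs_of_pos hr, div_le_iff₀ hr]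
      linarith) (by
      rw [iter_FFr, mul_div_cancel₀ _ hrC, hv0, mul_zero])
  have h6 := hloc.1
  rw [hre, div_eq_zero_iff] at h6
  exact hv1 (h6.resolve_right hr.ne')

end Pool.Agent.Zk17.JD
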