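import Pool.Agent.Zk3.DH.LM2
import Pool.Agent.Zk1.DH.G.Loc6
import Pool.Agent.Zk17.J.NormJ

set_option autoImplicit false

/-!
# `FF^(n)` at the height `t`: the local situation `LHg` from `LH` for `XX`
-/

namespace Pool.Agent.Zk17.JD

open Complex Filter Topology MeasureTheory Set
open Pool.Agent.H24R2.JP (XX FF HH Om)
open Pool.Agent.H24R2.DZ (ra)
open Pool.Agent.Zk1.DH
open Pool.Agent.Zk69.DH
open Pool.Agent.Zk17.J (zv wv wv_sq FF_zv norm_wv_sub norm_div_sub FF_zv_diff FF_zv_symm wv_ne sq_sq)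

/-- The scaled variable: `I t + r * tw = √(-t² + 2 i t r w)`. -/
noncomputable def tw (t r : ℝ) (w : ℂ) : ℂ := (wv t ((r : ℂ) * w) - I * t) / r

/-- The local function. -/
noncomputable def FFr (t r : ℝ) (w : ℂ) : ℂ := FF (zv t ((r : ℂ) * w))

lemma tw_spec {t r : ℝ} (hr : 0 < r) (w : ℂ) : I * t + r * tw t r w = wv t ((r : ℂ) * w) := by
  have : (r : ℂ) ≠ 0 := by exact_mod_cast hr.ne'
  unfold tw
  field_simp
  ring

lemma tw_near {t r : ℝ} (ht : 0 < t) (hr : 0 < r) (w : ℂ) : ‖tw t r w - w‖ ≤ 2 * r * ‖w‖ ^ 2 / t := by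
  have hrC : (r : ℂ) ≠ 0 := by exact_mod_cast hr.ne'
  have e : tw t r w - w = (wv t ((r : ℂ) * w) - (I * t + (r : ℂ) * w)) / r := by
    unfold tw
    field_simp
    ring
  have h := norm_wv_sub ht ((r : ℂ) * w)
  rw [e, norm_div, Complex.norm_real, Real.norm_eq_abs, abs_of_pos hr, div_le_iff₀ hr]
  refine h.trans (le_of_eq ?_)
  rw [norm_mul, Complex.norm_real, Real.norm_eq_abs, abs_of_pos hr]
  ring

lemma wv_hasDeriv {t : ℝ} (ht : 0 < t) {v : ℂ} (hv : 4 * ‖v‖ ≤ t) :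
    HasDerivAt (wv t) (I * t / wv t v) v := by
  have ht0 : (t : ℂ) ≠ 0 := by exact_mod_cast ht.ne'
  have hw := wv_ne ht hv
  have hslit : (1 - 2 * I * v / t : ℂ) ∈ slitPlane := by
    refine Or.inl ?_
    have h1 : ‖2 * I * v / t‖ ≤ 1 / 2 := by
      rw [Pool.Agent.Zk17.J.norm_arg ht, div_le_iff₀ ht]
      linarith
    have h2 := Complex.re_le_norm (2 * I * v / t)
    rw [Complex.sub_re, Complex.one_re]
    linarith
  have h0 : HasDerivAt (fun v : ℂ => 1 - 2 * I * v / t) (-(2 * I / t)) v := by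
    have h1 : HasDerivAt (fun v : ℂ => 2 * I * v / t) (2 * I * 1 / t) v :=
      ((hasDerivAt_id v).const_mul (2 * I)).div_const _
    simpa using h1.const_sub 1
  have h1 := h0.cpow_const (c := (1 / 2 : ℂ)) hslit
  have h2 := h1.const_mul (I * (t : ℂ))
  have hs : Pool.Agent.Zk17.J.sq t v ≠ 0 := by
    intro h
    apply hw
    unfold wv
    rw [h, mul_zero]
  have h3 : (1 - 2 * I * v / t : ℂ) ^ ((1 / 2 : ℂ) - 1) = (Pool.Agent.Zk17.J.sq t v)⁻¹ := by
    unfold Pool.Agent.Zk17.J.sq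
    rw [← Complex.cpow_neg]
    norm_num
  refine h2.congr_deriv ?_
  rw [h3]
  unfold wv
  have hI := I_ne_zero
  field_simp
  linear_combination (-1 : ℂ) * I_sq

lemma tw_deriv {t r : ℝ} (ht : 0 < t) (hr : 0 < r) {w : ℂ} (hw : 4 * ‖(r : ℂ) * w‖ ≤ t) :
    HasDerivAt (tw t r) (I * t / wv t ((r : ℂ) * w)) w := by
  have hrC : (r : ℂ) ≠ 0 := by exact_mod_cast hr.ne'
  have h0 : HasDerivAt (fun w : ℂ => (r : ℂ) * w) (r : ℂ) w := by
    simpa using (hasDerivAt_id w).const_mul (r : ℂ)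
  have h1 : HasDerivAt (fun w : ℂ => wv t ((r : ℂ) * w)) (I * t / wv t ((r : ℂ) * w) * r) w :=
    HasDerivAt.comp (h₂ := wv t) w (wv_hasDeriv ht hw) h0
  have h2 := (h1.sub_const (I * (t : ℂ))).div_const (r : ℂ)
  refine h2.congr_deriv ?_
  field_simp

lemma FFr_eq {t r : ℝ} (ht : t ≠ 0) (hr : 0 < r) (w : ℂ) : FFr t r w = FX t r (tw t r w) := by
  unfold FFr FX
  rw [tw_spec hr, FF_zv ht]

/-- From the local situation for `XX` to the one for `FF`. -/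
theorem toG {κ ε η B C3 R ρ Y τ : ℝ} {K0 n : ℕ} {X T t r : ℝ}
    (h : LH (2 * κ) (2 * ε) η B C3 (R + 1) ρ (Y + 1) K0 n (FX t r) (F0 X t r) (Dk X T t r))
    (hreg : ∀ w : ℂ, 1 - 2 * κ ≤ w.re → w.re ≤ ρ + R + 2 → |w.im| ≤ Y + 2 →
      ‖logDeriv (F0 X t r) w - n‖ ≤ 9 / 10 * (η * n))
    (hκ : 0 < κ) (hκ1 : κ ≤ 1) (hη : 0 < η) (hη1 : η ≤ 1) (hR : 1 ≤ R) (hρ : 1 ≤ ρ) (hY : 1 ≤ Y)
    (ht : 0 < t) (hr : 0 < r) (hτ : 0 < τ) (hτκ : τ ≤ κ) (hτε : τ ≤ ε) (hτη : τ ≤ η / 20)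
    (hsm1 : 2 * r * (ρ + R + Y + 4) ^ 2 / t ≤ τ) (hsm2 : 4 * (r * (ρ + R + Y + 4)) / t ≤ τ) :
    LocG.LHg κ ε η (B + 1) (C3 + 1) R ρ Y K0 n (FFr t r) (fun w => F0 X t r (tw t r w))
      (fun k w => Dk X T t r k (tw t r w)) := by
  have hn0 : (0 : ℝ) ≤ n := Nat.cast_nonneg n
  have hM : 0 < ρ + R + Y + 4 := by linarith
  have hτ1 : τ ≤ 1 / 20 := by linarith
  -- closeness
  have hclose : ∀ w : ℂ, ‖w‖ ≤ ρ + R + Y + 4 → ‖tw t r w - w‖ ≤ τ ∧ 4 * ‖(r : ℂ) * w‖ ≤ t ∧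
      ‖I * t / wv t ((r : ℂ) * w) - 1‖ ≤ τ := by
    intro w hw
    have h1 : ‖tw t r w - w‖ ≤ τ := by
      refine (tw_near ht hr w).trans (le_trans ?_ hsm1)
      gcongr
    have h2 : 4 * ‖(r : ℂ) * w‖ ≤ 4 * (r * (ρ + R + Y + 4)) := by
      rw [norm_mul, Complex.norm_real, Real.norm_eq_abs, abs_of_pos hr]
      gcongr
    have h3 : 4 * (r * (ρ + R + Y + 4)) ≤ τ * t := by
      rwa [div_le_iff₀ ht] at hsm2
    have h4 : 4 * ‖(r : ℂ) * w‖ ≤ t := by nlinarith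
    refine ⟨h1, h4, ?_⟩
    refine (norm_div_sub ht h4).trans (le_trans ?_ hsm2)
    gcongr
  have hre : ∀ w : ℂ, ‖w‖ ≤ ρ + R + Y + 4 → |(tw t r w).re - w.re| ≤ τ ∧ |(tw t r w).im - w.im| ≤ τ := by
    intro w hw
    have h1 := (hclose w hw).1
    have h2 := Complex.abs_re_le_norm (tw t r w - w)
    have h3 := Complex.abs_im_le_norm (tw t r w - w)
    rw [Complex.sub_re] at h2
    rw [Complex.sub_im] at h3
    exact ⟨h2.trans h1, h3.trans h1⟩
  have hnorm : ∀ w : ℂ, 1 - κ ≤ w.re → w.re ≤ ρ + R + 1 → |w.im| ≤ Y + 1 → κ ≤ 1 → ‖w‖ ≤ ρ + R + Y + 4 := by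
    intro w h1 h2 h3 h4
    refine (Complex.norm_le_abs_re_add_abs_im w).trans ?_
    rw [abs_of_nonneg (by linarith)]
    linarith
  have hpt : ∀ w : ℂ, 1 - κ ≤ w.re → w.re ≤ ρ + R + 1 → |w.im| ≤ Y + 1 →
      1 - 2 * κ ≤ (tw t r w).re ∧ (tw t r w).re ≤ ρ + R + 2 ∧ |(tw t r w).im| ≤ Y + 2 := by
    intro w h1 h2 h3
    obtain ⟨h4, h5⟩ := hre w (hnorm w h1 h2 h3 hκ1)
    rw [abs_le] at h4
    refine ⟨by linarith [h4.1], by linarith [h4.2], ?_⟩
    have h6 := abs_sub_abs_le_abs_sub (tw t r w).im w.im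
    linarith
  -- the normalisation
  have h1n : ‖(1 : ℂ)‖ ≤ ρ + R + Y + 4 := by rw [norm_one]; linarith
  have hN : ‖F0 X t r 1‖ ≤ ‖F0 X t r (tw t r 1)‖ * Real.exp n := by
    obtain ⟨h4, h5⟩ := hre 1 h1n
    have hc := (hclose 1 h1n).1
    rw [Complex.one_re, abs_le] at h4
    rw [Complex.one_im, sub_zero] at h5
    have h6 := grow_seg (F0 X t r) n η (tw t r 1) 1 hη.le hn0 (fun x hx => by
      have e1 : (tw t r 1 + (x : ℂ) * (1 - tw t r 1)).re = (tw t r 1).re + x * (1 - (tw t r 1).re) := by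
        simp
      have e2 : (tw t r 1 + (x : ℂ) * (1 - tw t r 1)).im = (1 - x) * (tw t r 1).im := by
        simp; ring
      refine h.reg _ ?_ ?_ ?_
      · rw [e1]
        nlinarith [hx.1, hx.2, h4.1, h4.2]
      · rw [e1]
        nlinarith [hx.1, hx.2, h4.1, h4.2]
      · rw [e2, abs_mul, abs_of_nonneg (by linarith [hx.2])]
        nlinarith [hx.1, hx.2, abs_nonneg (tw t r 1).im])
    refine h6.trans ?_
    rw [mul_comm]
    refine mul_le_mul_of_nonneg_left (Real.exp_le_exp.mpr ?_) (norm_nonneg _)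
    rw [Complex.one_re, norm_sub_rev]
    have h7 : (1 - (tw t r 1).re) ≤ τ := by linarith [h4.1]
    have h8 : η * n * ‖tw t r 1 - 1‖ ≤ 1 * n * τ := by gcongr
    nlinarith
  have hN' : ∀ C : ℝ, ‖F0 X t r 1‖ * Real.exp (C * n) ≤ ‖F0 X t r (tw t r 1)‖ * Real.exp ((C + 1) * n) := by
    intro C
    calc ‖F0 X t r 1‖ * Real.exp (C * n) ≤ (‖F0 X t r (tw t r 1)‖ * Real.exp n) * Real.exp (C * n) := by
          gcongr
      _ = _ := by rw [mul_assoc, ← Real.exp_add]; ring_nf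
  refine ⟨?_, ?_, ?_, ?_, ?_, ?_, ?_⟩
  · exact FF_zv_diff t (r : ℂ)
  · exact FF_zv_symm t r
  · intro w h1 h2 h3
    obtain ⟨p1, p2, p3⟩ := hpt w h1 h2 h3
    obtain ⟨q1, q2, q3⟩ := hclose w (hnorm w h1 h2 h3 hκ1)
    obtain ⟨g1, g2, -⟩ := h.reg (tw t r w) p1 (by linarith) (by linarith)
    have g3 := hreg (tw t r w) p1 p2 p3
    have hd := tw_deriv ht hr q2
    have hcomp : HasDerivAt (fun w => F0 X t r (tw t r w))
        (deriv (F0 X t r) (tw t r w) * (I * t / wv t ((r : ℂ) * w))) w :=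
      HasDerivAt.comp (h₂ := F0 X t r) w g1.hasDerivAt hd
    refine ⟨hcomp.differentiableAt, g2, ?_⟩
    have e1 : logDeriv (fun w => F0 X t r (tw t r w)) w =
        (I * t / wv t ((r : ℂ) * w)) * logDeriv (F0 X t r) (tw t r w) := by
      rw [logDeriv_apply, hcomp.deriv, logDeriv_apply]
      ring
    rw [e1]
    set d := I * t / wv t ((r : ℂ) * w) with hdd
    set l := logDeriv (F0 X t r) (tw t r w) with hl
    have e2 : d * l - n = (l - n) + (d - 1) * (l - n) + (d - 1) * n := by ring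
    rw [e2]
    have h5 : ‖(d - 1) * (l - n)‖ ≤ η / 20 * (1 * n) := by
      rw [norm_mul]
      refine mul_le_mul (q3.trans hτη) (g3.trans ?_) (norm_nonneg _) (by positivity)
      nlinarith
    have h6 : ‖(d - 1) * (n : ℂ)‖ ≤ η / 20 * n := by
      rw [norm_mul, Complex.norm_natCast]
      exact mul_le_mul_of_nonneg_right (q3.trans hτη) hn0
    refine (norm_add_le _ _).trans ((add_le_add_left (norm_add_le _ _) _).trans ?_)
    linarith
  · intro k hk w h1 h2 h3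
    obtain ⟨q1, q2, q3⟩ := hclose w (hnorm w h1 h2 h3 hκ1)
    exact (HasDerivAt.comp (h₂ := Dk X T t r k) w (h.Ddiff k hk (tw t r w)).hasDerivAt
      (tw_deriv ht hr q2)).differentiableAt
  · intro k hk w h1 h2 h3
    obtain ⟨p1, p2, p3⟩ := hpt w h1 h2 h3
    obtain ⟨h4, -⟩ := hre w (hnorm w h1 h2 h3 hκ1)
    rw [abs_le] at h4
    have hk2 : 2 ≤ k := (Finset.mem_Ico.mp hk).1
    have hk2' : (2 : ℝ) ≤ k := by exact_mod_cast hk2
    have hq : (0 : ℝ) < ((k : ℝ) + 1) / (k - 1) := div_pos (by linarith) (by linarith)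
    refine (h.Dbd k hk (tw t r w) p1 (by linarith) (by linarith)).trans ?_
    rw [Real.rpow_def_of_pos hq, Real.rpow_def_of_pos hq, ← Real.exp_add, ← Real.exp_add]
    refine Real.exp_le_exp.mpr ?_
    have h5 := log_ratio hk2
    have h6 : 2 * n * w.re / ((k : ℝ) + 1) - 2 * n * (tw t r w).re / ((k : ℝ) + 1) ≤ ε * n * (2 / k) := by
      rw [← sub_div, div_le_iff₀ (by linarith)]
      have h7 : 2 * n * w.re - 2 * n * (tw t r w).re ≤ 2 * n * ε := by
        have : w.re - (tw t r w).re ≤ ε := by linarith [h4.1]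
        nlinarith
      refine h7.trans ?_
      have h8 : (1 : ℝ) ≤ 1 / k * (k + 1) := by
        rw [div_mul_eq_mul_div, one_mul, le_div_iff₀ (by linarith)]; linarith
      have h9 : 0 ≤ 2 * n * ε := by
        have : 0 ≤ ε := by linarith
        positivity
      calc 2 * n * ε = 2 * n * ε * 1 := by ring
        _ ≤ 2 * n * ε * (1 / k * (k + 1)) := mul_le_mul_of_nonneg_left h8 h9
        _ = _ := by ring
    have h10 : ε * n * (2 / k) ≤ ε * n * Real.log (((k : ℝ) + 1) / (k - 1)) := by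
      have : 0 ≤ ε := by linarith
      exact mul_le_mul_of_nonneg_left h5 (by positivity)
    nlinarith
  · intro w h1 h2 h3
    obtain ⟨p1, p2, p3⟩ := hpt w h1 h2 h3
    have h4 := h.Ebd (tw t r w) p1 (by linarith) (by linarith)
    rw [FFr_eq ht.ne' hr]
    exact h4.trans (hN' B)
  · intro w h1 h2
    have hw : ‖w‖ ≤ ρ + R + Y + 4 := by
      refine (Complex.norm_le_abs_re_add_abs_im w).trans ?_
      linarith
    obtain ⟨h4, h5⟩ := hre w hw
    have h6 := abs_sub_abs_le_abs_sub (tw t r w).im w.im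
    have h7 := abs_sub_abs_le_abs_sub (tw t r w).re w.re
    rw [FFr_eq ht.ne' hr]
    exact (h.grow (tw t r w) (by linarith) (by linarith)).trans (hN' C3)

end Pool.Agent.Zk17.JD
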